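import Mathlib
import Pool.Agent.H631R2.FLang

set_option autoImplicit false

/-!
# The polarized relation at the dominating number: definitions

The forcing language is that of `Pool.Agent.Helper292.SP.Lang`: a sentence is the set of the
conditions which force it, a name for a subset of a ground model set `A` is a map `A → Set P`, and
a name for a function from `A` to `B` is a map `A → B → Set P`.
-/

namespace Pool.Agent.N641.RR

open Cardinal Set
open Pool.Agent.Helper292.SP (fnot fand fall fimp fex fground meets IsFun)
open Pool.Agent.H631R2 (IsInj)

/-- The dominating number `𝔡` of the ground model: the least size of a family of functions from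
`ℕ` to `ℕ` such that every function `g` is eventually below a member of the family. -/
noncomputable def dnum : Cardinal.{0} :=
  sInf {κ | ∃ F : Set (ℕ → ℕ), #F = κ ∧ ∀ g : ℕ → ℕ, ∃ f ∈ F, ∃ k, ∀ n, k ≤ n → g n ≤ f n}

/-- The polarized relation `(|D|, ω) → (|D|, ω)` for two colours in the ground model. -/
def Arrow (D : Type) : Prop :=
  ∀ c : D → ℕ → Bool, ∃ A : Set D, #A = #D ∧ ∃ B : Set ℕ, B.Infinite ∧
    ∃ i : Bool, ∀ a ∈ A, ∀ n ∈ B, c a n = i

/-- The colour given by the name `N` is `i`: the colour is `true` if the generic filter meets `N`,
and `false` otherwise. -/
def Col {P : Type} [Preorder P] (N : Set P) (i : Bool) : Set P :=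
  if i = true then meets N else fnot (meets N)

/-- In the extension the polarized relation `(|D|, ω) → (|D|, ω)` for two colours holds: for every
colouring `c` of `D × ω` there are a set `A ⊆ D`, a one-to-one function `e` from `D` to `A`, an
infinite set `B ⊆ ω` and a colour `i` such that all elements of `A × B` have the colour `i`. -/
def FArrow (P : Type) [Preorder P] (D : Type) : Set P :=
  fall fun c : D → ℕ → Set P => fex fun A : D → Set P => fex fun e : D → D → Set P =>
    fex fun B : ℕ → Set P => fex fun i : Bool =>
      fand (fand (fand (IsFun e) (IsInj e))
          (fall fun d : D => fall fun a : D => fimp (meets (e d a)) (meets (A a))))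
        (fand (fall fun m : ℕ => fex fun n : ℕ => fand (fground (m ≤ n)) (meets (B n)))
          (fall fun a : D => fall fun n : ℕ =>
            fimp (fand (meets (A a)) (meets (B n))) (Col (c a n) i)))

/-- In the extension `F` is a family, indexed by `M`, of functions from `ℕ` to `ℕ` such that every
function from `ℕ` to `ℕ` is eventually below a member of the family. -/
def FDominating {P : Type} [Preorder P] {M : Type} (F : M → ℕ → ℕ → Set P) : Set P :=
  fand (fall fun m : M => IsFun (F m))
    (fall fun g : ℕ → ℕ → Set P => fimp (IsFun g) (fex fun m : M => fex fun k : ℕ =>
      fall fun n : ℕ => fall fun a : ℕ => fall fun b : ℕ =>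
        fimp (fand (fground (k ≤ n)) (fand (meets (g n a)) (meets (F m n b)))) (fground (a ≤ b))))

/-- In the extension `|D|` is the dominating number: some family indexed by `D` is dominating, and
no family indexed by a set `M` of the ground model with `|M| < |D|` is. (The notions of forcing
considered here have the countable chain condition, so cardinals are the same in the ground model
and in the extension.) -/
def FDNum (P : Type) [Preorder P] (D : Type) : Set P :=
  fand (fex fun F : D → ℕ → ℕ → Set P => FDominating F)
    (fall fun M : {M : Type // #M < #D} => fnot (fex fun F : M.1 → ℕ → ℕ → Set P => FDominating F))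

end Pool.Agent.N641.RR
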