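import Mathlib
import Pool.Agent.N641.RR.Defs
import Pool.Agent.R582.Rand.Reg

set_option autoImplicit false

/-!
# Forcing with a measure algebra does not change the dominating number
-/

namespace Pool.Agent.N641.RR

open Cardinal Set MeasureTheory Filter
open scoped ENNReal
open Pool.Agent.Helper292.SP (fnot fand fall fimp fex fground meets IsFun mem_fex mem_fimp
  not_fex down_meets IsFun_fun IsFun_tot)
open Pool.Agent.R582.Rand

/-- Names for functions are eventually bounded by functions of the ground model. -/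
theorem bounded {Ω : Type} [MeasurableSpace Ω] {μ : Measure Ω} [IsFiniteMeasure μ]
    (g : ℕ → ℕ → Set (MAlg μ)) (r : MAlg μ) (hg : r ∈ IsFun g) : ∃ h : ℕ → ℕ,
      ∀ q ≤ r, ∃ t ≤ q, ∃ k, ∀ n, k ≤ n → ∀ a, ∀ u ≤ t, u ∈ meets (g n a) → a ≤ h n := by
  set G : ℕ → ℕ → Set Ω := fun n a => val (g n a) with hG
  have hGm : ∀ n a, MeasurableSet (G n a) := fun n a => val_meas _
  set V : ℕ → ℕ → Set Ω := fun n a => r.s ∩ ⋃ a', ⋃ _ : a < a', G n a' with hV
  have hVm : ∀ n a, MeasurableSet (V n a) := fun n a =>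
    r.meas.inter (MeasurableSet.iUnion fun a' => MeasurableSet.iUnion fun _ => hGm n a')
  have hVa : ∀ n, Antitone (V n) := by
    intro n a a' haa' ω hω
    obtain ⟨h1, h2⟩ := hω
    simp only [mem_iUnion] at h2
    obtain ⟨c, hc, hc'⟩ := h2
    refine ⟨h1, ?_⟩
    simp only [mem_iUnion]
    exact ⟨c, haa'.trans_lt hc, hc'⟩
  have hV0 : ∀ n, μ (⋂ a, V n a) = 0 := by
    intro n
    have h1 : (⋂ a, V n a) ⊆ ⋃ a, ⋃ a', ⋃ _ : ¬ a = a', r.s ∩ (G n a ∩ G n a') := by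
      intro ω hω
      have h2 := mem_iInter.1 hω 0
      obtain ⟨h3, h4⟩ := h2
      simp only [mem_iUnion] at h4
      obtain ⟨c, -, hc⟩ := h4
      obtain ⟨-, h5⟩ := mem_iInter.1 hω c
      simp only [mem_iUnion] at h5
      obtain ⟨c', hc', hc''⟩ := h5
      simp only [mem_iUnion]
      exact ⟨c, c', hc'.ne, h3, hc, hc''⟩
    refine measure_mono_null h1 (measure_iUnion_null fun a => measure_iUnion_null fun a' =>
      measure_iUnion_null fun hne => ?_)
    refine inter_null_of_imp (hGm n a) (hGm n a') hne fun q hq h2 h3 => ?_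
    exact IsFun_fun g r hg q hq n a a' (mem_meets.2 h2) (mem_meets.2 h3)
  have hh : ∀ n, ∃ a, μ (V n a) < (2⁻¹ : ℝ≥0∞) ^ n := by
    intro n
    have h1 := tendsto_measure_iInter_atTop (μ := μ) (fun a => (hVm n a).nullMeasurableSet) (hVa n)
      ⟨0, measure_ne_top μ _⟩
    rw [hV0] at h1
    have h2 : (0 : ℝ≥0∞) < (2⁻¹ : ℝ≥0∞) ^ n := by
      apply ENNReal.pow_pos
      simp
    exact (h1.eventually_lt_const h2).exists
  choose h hh using hh
  refine ⟨h, fun q hq => ?_⟩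
  have hsum : ∑' n, μ (V n (h n)) ≠ ∞ := by
    refine ne_top_of_le_ne_top ?_ (ENNReal.tsum_le_tsum fun n => (hh n).le)
    rw [ENNReal.tsum_geometric]
    simp
  have hae := ae_eventually_notMem hsum
  set W : ℕ → Set Ω := fun k => ⋂ n, ⋂ _ : k ≤ n, (V n (h n))ᶜ with hW
  have hWm : ∀ k, MeasurableSet (W k) := fun k =>
    MeasurableSet.iInter fun n => MeasurableSet.iInter fun _ => (hVm n _).compl
  have h1 : ∃ k, μ (q.s ∩ W k) ≠ 0 := by
    by_contra hcon
    push Not at hcon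
    apply q.pos
    have h2 : ∀ᵐ ω ∂μ, ∀ k, ¬ ω ∈ q.s ∩ W k := by
      rw [ae_all_iff]
      intro k
      rw [ae_iff]
      simp only [not_not]
      exact hcon k
    have h3 : ∀ᵐ ω ∂μ, ¬ ω ∈ q.s := by
      filter_upwards [hae, h2] with ω h3 h4 hω
      obtain ⟨k, hk⟩ := eventually_atTop.1 h3
      refine h4 k ⟨hω, ?_⟩
      simp only [hW, mem_iInter, mem_compl_iff]
      exact fun n hn => hk n hn
    rw [ae_iff] at h3
    simp only [not_not] at h3
    exact h3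
  obtain ⟨k, hk⟩ := h1
  refine ⟨q.inter (W k) (hWm k) hk, q.inter_le _ _ _, k, fun n hn a u hu hua => ?_⟩
  by_contra hlt
  push Not at hlt
  have hur : u ≤ r := hu.trans ((q.inter_le _ _ _).trans hq)
  have h2 : μ (u.s \ W k) = 0 := null_diff_trans hu (null_diff_of_subset inter_subset_right)
  have h3 : μ (u.s \ V n (h n)) = 0 := by
    have h4 : u.s \ V n (h n) ⊆ (u.s \ r.s) ∪ (u.s \ G n a) := by
      rintro ω ⟨hω, hω'⟩
      by_cases h5 : ω ∈ r.s
      · right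
        refine ⟨hω, fun h6 => hω' ⟨h5, ?_⟩⟩
        simp only [mem_iUnion]
        exact ⟨a, hlt, h6⟩
      · exact Or.inl ⟨hω, h5⟩
    exact measure_mono_null h4 (measure_union_null hur (mem_meets.1 hua))
  refine u.false_of_disj h2 h3 ?_
  have : W k ∩ V n (h n) = ∅ := by
    ext ω
    simp only [hW, mem_inter_iff, mem_iInter, mem_compl_iff, mem_empty_iff_false, iff_false, not_and]
    intro h4
    exact h4 n hn
  rw [this]
  simp

/-- a function of the ground model as a name -/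
def chk {P : Type} (f : ℕ → ℕ) (n a : ℕ) : Set P := {_p | f n = a}

theorem mem_meets_chk {P : Type} [Preorder P] {f : ℕ → ℕ} {n a : ℕ} {p : P} :
    p ∈ meets (chk f n a) ↔ f n = a := by
  constructor
  · intro h
    obtain ⟨r, -, s, hs, -⟩ := h p le_rfl
    exact hs
  · intro h q _
    exact ⟨q, le_rfl, q, h, le_rfl⟩

theorem chk_fun {P : Type} [Preorder P] (f : ℕ → ℕ) (p : P) : p ∈ IsFun (chk (P := P) f) := by
  refine ⟨fun n => mem_fex.2 fun q _ => ⟨q, le_rfl, f n, mem_meets_chk.2 rfl⟩, fun n a a' => ?_⟩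
  refine mem_fimp.2 fun q _ hq => ⟨q, le_rfl, ?_⟩
  exact (mem_meets_chk.1 hq.1).symm.trans (mem_meets_chk.1 hq.2)

theorem dnum_spec : ∃ F : Set (ℕ → ℕ), #F = dnum ∧
    ∀ g : ℕ → ℕ, ∃ f ∈ F, ∃ k, ∀ n, k ≤ n → g n ≤ f n :=
  csInf_mem (s := {κ : Cardinal.{0} | ∃ F : Set (ℕ → ℕ), #F = κ ∧
    ∀ g : ℕ → ℕ, ∃ f ∈ F, ∃ k, ∀ n, k ≤ n → g n ≤ f n})
    ⟨_, univ, rfl, fun g => ⟨g, mem_univ _, 0, fun _ _ => le_rfl⟩⟩

theorem exists_of_lt {M : Type} (hM : #M < dnum) (h : M → ℕ → ℕ) :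
    ∃ g : ℕ → ℕ, ∀ m k, ∃ n, k ≤ n ∧ h m n < g n := by
  by_contra hcon
  push Not at hcon
  have h1 : dnum ≤ #(range h) := by
    refine csInf_le' ⟨range h, rfl, fun g => ?_⟩
    obtain ⟨m, k, hk⟩ := hcon g
    exact ⟨h m, mem_range_self m, k, hk⟩
  exact absurd (h1.trans Cardinal.mk_range_le) (not_le.2 hM)

theorem aleph0_lt_dnum : ℵ₀ < dnum := by
  by_contra hcon
  push Not at hcon
  obtain ⟨F, hF, hd⟩ := dnum_spec
  rw [← hF] at hcon
  have hc : F.Countable := Cardinal.le_aleph0_iff_set_countable.1 hcon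
  have hne : F.Nonempty := by
    obtain ⟨f, hf, -⟩ := hd fun _ => 0
    exact ⟨f, hf⟩
  obtain ⟨e, he⟩ := hc.exists_eq_range hne
  obtain ⟨f, hf, k, hk⟩ := hd fun n => (∑ i ∈ Finset.range (n + 1), e i n) + 1
  rw [he] at hf
  obtain ⟨j, rfl⟩ := hf
  have h1 := hk (max j k) (le_max_right _ _)
  have h2 : e j (max j k) ≤ ∑ i ∈ Finset.range (max j k + 1), e i (max j k) :=
    Finset.single_le_sum (f := fun i => e i (max j k)) (fun _ _ => Nat.zero_le _)
      (Finset.mem_range.2 (Nat.lt_succ_of_le (le_max_left _ _)))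
  omega

/-- The dominating number is not changed. -/
theorem fdnum {Ω : Type} [MeasurableSpace Ω] {μ : Measure Ω} [IsFiniteMeasure μ] (D : Type)
    (hD : #D = dnum) (p : MAlg μ) : p ∈ FDNum (MAlg μ) D := by
  constructor
  · obtain ⟨F, hF, hd⟩ := dnum_spec
    rw [← hD] at hF
    obtain ⟨e⟩ := Cardinal.eq.1 hF.symm
    refine mem_fex.2 fun q _ => ⟨q, le_rfl, fun d => chk (e d : ℕ → ℕ), fun d => chk_fun _ _,
      fun g => mem_fimp.2 fun r _ hr => ?_⟩
    obtain ⟨h, hh⟩ := bounded g r hr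
    obtain ⟨f, hf, k, hk⟩ := hd h
    refine ⟨r, le_rfl, mem_fex.2 fun q' hq' => ?_⟩
    obtain ⟨t, ht, k', hk'⟩ := hh q' hq'
    refine ⟨t, ht, e.symm ⟨f, hf⟩, mem_fex.2 fun s hs => ⟨s, le_rfl, max k k', fun n a b =>
      mem_fimp.2 fun u hu hu' => ⟨u, le_rfl, ?_⟩⟩⟩
    obtain ⟨h1, h2, h3⟩ := hu'
    change max k k' ≤ n at h1
    have h4 := mem_meets_chk.1 h3
    rw [Equiv.apply_symm_apply] at h4
    change a ≤ b
    rw [← h4]
    exact (hk' n ((le_max_right _ _).trans h1) a u (hu.trans hs) h2).trans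
      (hk n ((le_max_left _ _).trans h1))
  · rintro ⟨M, hM⟩
    refine not_fex fun q _ F hF => ?_
    obtain ⟨hfun, hdom⟩ := hF
    have h1 : ∀ m : M, ∃ h : ℕ → ℕ, ∀ q' ≤ q, ∃ t ≤ q', ∃ k, ∀ n, k ≤ n → ∀ a, ∀ u ≤ t,
        u ∈ meets (F m n a) → a ≤ h n := fun m => bounded (F m) q (hfun m)
    choose h hh using h1
    obtain ⟨g, hg⟩ := exists_of_lt (hD ▸ hM) h
    obtain ⟨r, hr, hr'⟩ := mem_fimp.1 (hdom (chk g)) q le_rfl (chk_fun g q)
    obtain ⟨s, hs, m, hs'⟩ := mem_fex.1 hr' r le_rfl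
    obtain ⟨t, ht, k, ht'⟩ := mem_fex.1 hs' s le_rfl
    obtain ⟨u, hu, k', hu'⟩ := hh m t (ht.trans (hs.trans hr))
    obtain ⟨n, hn, hlt⟩ := hg m (max k k')
    have huq : u ≤ q := hu.trans (ht.trans (hs.trans hr))
    obtain ⟨v, hv, b, hvb⟩ := IsFun_tot (F m) q (hfun m) u huq n
    have h2 : b ≤ h m n := hu' n ((le_max_right _ _).trans hn) b v hv hvb
    obtain ⟨w, -, hw⟩ := mem_fimp.1 (ht' n (g n) b) v (hv.trans hu)
      ⟨(le_max_left _ _).trans hn, mem_meets_chk.2 rfl, hvb⟩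
    change g n ≤ b at hw
    omega

end Pool.Agent.N641.RR
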