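import Mathlib
import Pool.Agent.R582.Rand.Prod

set_option autoImplicit false

/-!
# A set in a small model is split by an independent random real
-/

namespace Pool.Agent.N641.RR

open Cardinal Set MeasureTheory
open scoped ENNReal
open Pool.Agent.R582.Rand (coins mA mA_le mA_mono coins_match)

variable {L : Type}

/-- the finite version -/
theorem finite_block (C : Set (L × ℕ)) (l : L) (hl : ∀ n, (l, n) ∉ C)
    (b : ℕ → Set (L × ℕ → Bool)) (hb : ∀ n, MeasurableSet[mA C] (b n)) (i : Bool) (m N : ℕ) :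
    coins (L × ℕ) {ω | (∃ F ⊆ Finset.range N, m ≤ F.card ∧ ∀ n < N, (n ∈ F ↔ ω ∈ b n)) ∧
      ∀ n, ω ∈ b n → ω (l, n) = i} ≤ (2⁻¹ : ℝ≥0∞) ^ m := by
  classical
  set E : Finset ℕ → Set (L × ℕ → Bool) := fun F => {ω | ∀ n < N, (n ∈ F ↔ ω ∈ b n)} with hE
  have hEm : ∀ F, MeasurableSet[mA C] (E F) := by
    intro F
    have : E F = ⋂ n, ⋂ _ : n < N, (if n ∈ F then b n else (b n)ᶜ) := by
      ext ω
      simp only [hE, mem_ofPred_eq, mem_iInter]
      refine forall₂_congr fun n _ => ?_
      by_cases h : n ∈ F <;> simp [h]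
    rw [this]
    refine MeasurableSet.iInter fun n => MeasurableSet.iInter fun _ => ?_
    split_ifs
    · exact hb n
    · exact (hb n).compl
  set I : Finset (Finset ℕ) := (Finset.range N).powerset.filter fun F => m ≤ F.card with hI
  have hsub : {ω : L × ℕ → Bool | (∃ F ⊆ Finset.range N, m ≤ F.card ∧ ∀ n < N, (n ∈ F ↔ ω ∈ b n)) ∧
      ∀ n, ω ∈ b n → ω (l, n) = i} ⊆ ⋃ F ∈ I, (E F ∩ {ω | ∀ n ∈ F, ω (l, n) = i}) := by
    rintro ω ⟨⟨F, hF, hm, h⟩, h2⟩
    refine mem_biUnion (x := F) ?_ ⟨h, fun n hn => h2 n ((h n (Finset.mem_range.1 (hF hn))).1 hn)⟩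
    simp only [hI, Finset.coe_filter, Finset.mem_powerset, mem_ofPred_eq]
    exact ⟨hF, hm⟩
  refine (measure_mono hsub).trans ((measure_biUnion_finset_le _ _).trans ?_)
  have h1 : ∀ F ∈ I, coins (L × ℕ) (E F ∩ {ω | ∀ n ∈ F, ω (l, n) = i}) ≤
      coins (L × ℕ) (E F) * (2⁻¹ : ℝ≥0∞) ^ m := by
    intro F hF
    have hm : m ≤ F.card := by
      simp only [hI, Finset.mem_filter] at hF
      exact hF.2
    obtain ⟨a, ha⟩ : ∃ a : Fin m → ℕ, Function.Injective a ∧ ∀ j, a j ∈ F := by
      obtain ⟨F', hF', hc⟩ := Finset.exists_subset_card_eq hm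
      exact ⟨fun j => F'.orderEmbOfFin hc j, (F'.orderEmbOfFin hc).injective,
        fun j => hF' (Finset.orderEmbOfFin_mem F' hc j)⟩
    refine le_trans (measure_mono ?_) (coins_match (fun j => (l, a j))
      (fun j k h => ha.1 (by simpa using h)) C (fun j => hl _) (fun _ _ => i) ?_ (E F) (hEm F))
    · rintro ω ⟨h1, h2⟩
      exact ⟨h1, fun j => h2 _ (ha.2 j)⟩
    · intro s
      by_cases h : (fun _ : Fin m => i) = s
      · have : {ω : L × ℕ → Bool | (fun _ : Fin m => i) = s} = Set.univ := by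
          ext; simp [h]
        rw [this]
        exact @MeasurableSet.univ _ (mA C)
      · have : {ω : L × ℕ → Bool | (fun _ : Fin m => i) = s} = ∅ := by
          ext; simp [h]
        rw [this]
        exact @MeasurableSet.empty _ (mA C)
  refine (Finset.sum_le_sum h1).trans ?_
  rw [← Finset.sum_mul]
  have h2 : ∑ F ∈ I, coins (L × ℕ) (E F) ≤ 1 := by
    rw [← measure_biUnion_finset]
    · exact prob_le_one
    · intro F hF G hG hne
      change Disjoint _ _
      rw [Set.disjoint_left]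
      intro ω h1 h2
      apply hne
      have hFr : F ⊆ Finset.range N := by
        have := Finset.mem_coe.1 hF
        simp only [hI, Finset.mem_filter, Finset.mem_powerset] at this
        exact this.1
      have hGr : G ⊆ Finset.range N := by
        have := Finset.mem_coe.1 hG
        simp only [hI, Finset.mem_filter, Finset.mem_powerset] at this
        exact this.1
      ext n
      constructor
      · intro h
        have hn := Finset.mem_range.1 (hFr h)
        exact (h2 n hn).2 ((h1 n hn).1 h)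
      · intro h
        have hn := Finset.mem_range.1 (hGr h)
        exact (h1 n hn).2 ((h2 n hn).1 h)
    · intro F _
      exact mA_le C _ (hEm F)
  calc (∑ F ∈ I, coins (L × ℕ) (E F)) * (2⁻¹ : ℝ≥0∞) ^ m ≤ 1 * (2⁻¹ : ℝ≥0∞) ^ m := by gcongr
    _ = _ := one_mul _

/-- A random real which is independent of an infinite set is not constant on it. -/
theorem block_null (C : Set (L × ℕ)) (l : L) (hl : ∀ n, (l, n) ∉ C)
    (b : ℕ → Set (L × ℕ → Bool)) (hb : ∀ n, MeasurableSet[mA C] (b n)) (i : Bool) :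
    coins (L × ℕ) {ω | {n | ω ∈ b n}.Infinite ∧ ∀ n, ω ∈ b n → ω (l, n) = i} = 0 := by
  classical
  have key : ∀ m : ℕ, coins (L × ℕ) {ω | {n | ω ∈ b n}.Infinite ∧ ∀ n, ω ∈ b n → ω (l, n) = i} ≤
      (2⁻¹ : ℝ≥0∞) ^ m := by
    intro m
    set T : ℕ → Set (L × ℕ → Bool) := fun N =>
      {ω | (∃ F ⊆ Finset.range N, m ≤ F.card ∧ ∀ n < N, (n ∈ F ↔ ω ∈ b n)) ∧
        ∀ n, ω ∈ b n → ω (l, n) = i} with hT
    have hmono : Monotone T := by
      refine monotone_nat_of_le_succ fun N => ?_
      rintro ω ⟨⟨F, hF, hm, h⟩, h2⟩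
      refine ⟨⟨(Finset.range (N + 1)).filter fun n => ω ∈ b n, Finset.filter_subset _ _, ?_, ?_⟩, h2⟩
      · refine hm.trans (Finset.card_le_card fun n hn => ?_)
        have h3 := Finset.mem_range.1 (hF hn)
        simp only [Finset.mem_filter, Finset.mem_range]
        exact ⟨by omega, (h n h3).1 hn⟩
      · intro n hn
        simp only [Finset.mem_filter, Finset.mem_range]
        exact ⟨fun h => h.2, fun h => ⟨hn, h⟩⟩
    have hsub : {ω : L × ℕ → Bool | {n | ω ∈ b n}.Infinite ∧ ∀ n, ω ∈ b n → ω (l, n) = i} ⊆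
        ⋃ N, T N := by
      rintro ω ⟨h1, h2⟩
      obtain ⟨F, hF, hc⟩ := h1.exists_subset_card_eq m
      refine mem_iUnion.2 ⟨F.sup id + 1, ⟨(Finset.range (F.sup id + 1)).filter fun n => ω ∈ b n,
        Finset.filter_subset _ _, ?_, ?_⟩, h2⟩
      · rw [← hc]
        refine Finset.card_le_card fun n hn => ?_
        simp only [Finset.mem_filter, Finset.mem_range]
        have h3 : n ≤ F.sup id := Finset.le_sup (f := id) hn
        exact ⟨by omega, hF hn⟩
      · intro n hn
        simp only [Finset.mem_filter, Finset.mem_range]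
        exact ⟨fun h => h.2, fun h => ⟨hn, h⟩⟩
    refine (measure_mono hsub).trans ?_
    rw [hmono.measure_iUnion]
    exact iSup_le fun N => finite_block C l hl b hb i m N
  have hlim : Filter.Tendsto (fun m : ℕ => (2⁻¹ : ℝ≥0∞) ^ m) Filter.atTop (nhds 0) :=
    ENNReal.tendsto_pow_atTop_nhds_zero_of_lt_one (by simp)
  exact le_antisymm (ge_of_tendsto' hlim key) zero_le

end Pool.Agent.N641.RR
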