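import Mathlib
import Pool.Agent.N641.RR.Defs
import Pool.Agent.N641.RR.Meas
import Pool.Agent.R582.Rand.Reg

set_option autoImplicit false

/-!
# After adding random reals the polarized relation fails
-/

namespace Pool.Agent.N641.RR

open Cardinal Set MeasureTheory
open scoped ENNReal
open Pool.Agent.Helper292.SP (fnot fand fall fimp fex fground meets IsFun mem_fex mem_fimp
  not_fex down_meets IsFun_fun IsFun_tot)
open Pool.Agent.H631R2 (IsInj CCC)
open Pool.Agent.R582.Rand

variable {L : Type}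

/-- the generic colouring: the colour of `(d, n)` is the `n`-th digit of the random real `ι d` -/
def gen {K : Type} (ι : K → L) (d : K) (n : ℕ) : Set (MAlg (coins (L × ℕ))) :=
  cst {ω | ω (ι d, n) = true}

theorem gen_meas (l : L) (n : ℕ) (i : Bool) :
    MeasurableSet {ω : L × ℕ → Bool | ω (l, n) = i} :=
  measurableSet_eq_fun (measurable_pi_apply (l, n)) measurable_const

/-- a condition below which the colour is decided -/
theorem col_gen {K : Type} (ι : K → L) (d : K) (n : ℕ) (i : Bool) {q : MAlg (coins (L × ℕ))}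
    (hq : q ∈ Col (gen ι d n) i) (h : coins (L × ℕ) (q.s \ {ω | ω (ι d, n) = !i}) = 0) : False := by
  cases i
  · simp only [Col, Bool.false_eq_true, if_false] at hq
    apply hq q le_rfl
    rw [gen, mem_meets_cst (gen_meas _ _ _)]
    simpa using h
  · simp only [Col, if_true] at hq
    rw [gen, mem_meets_cst (gen_meas _ _ _)] at hq
    refine q.false_of_disj hq h ?_
    have : {ω : L × ℕ → Bool | ω (ι d, n) = true} ∩ {ω | ω (ι d, n) = !true} = ∅ := by
      ext ω
      simp
    rw [this]; simp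

/-- After adding at least `κ` random reals the relation `(κ, ω) → (κ, ω)` fails, for every
uncountable cardinal `κ`. -/
theorem fail (K : Type) (hK : ℵ₀ < #K) (hKL : #K ≤ #L) (p : MAlg (coins (L × ℕ))) :
    p ∈ fnot (FArrow (MAlg (coins (L × ℕ))) K) := by
  intro q _ hq
  obtain ⟨ι⟩ := hKL
  obtain ⟨r, -, A, hr⟩ := mem_fex.1 (hq (gen ι)) q le_rfl
  obtain ⟨r, -, e, hr⟩ := mem_fex.1 hr r le_rfl
  obtain ⟨r, -, B, hr⟩ := mem_fex.1 hr r le_rfl
  obtain ⟨r, -, i, ⟨⟨hef, hei⟩, heA⟩, hinf, hcol⟩ := mem_fex.1 hr r le_rfl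
  -- the infinite set
  set b : ℕ → Set (L × ℕ → Bool) := fun n => val (B n) with hb
  have hbm : ∀ n, MeasurableSet (b n) := fun n => val_meas _
  have h1 : ∀ m : ℕ, coins (L × ℕ) (r.s \ ⋃ n, {ω | m ≤ n ∧ ω ∈ b n}) = 0 := by
    intro m
    refine null_of_fex (MeasurableSet.iUnion fun n => ?_) (hinf m) ?_
    · by_cases h : m ≤ n
      · simpa [h] using hbm n
      · simp [h]
    · rintro n s - ⟨hmn, hs⟩
      rw [mem_meets] at hs
      exact null_diff_trans hs (null_diff_of_subset fun ω hω => ⟨hmn, hω⟩)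
  have h2 : ∀ᵐ ω ∂(coins (L × ℕ)), ω ∈ r.s → {n | ω ∈ b n}.Infinite := by
    have h3 : ∀ᵐ ω ∂(coins (L × ℕ)), ∀ m : ℕ, ω ∈ r.s → ω ∈ ⋃ n, {ω | m ≤ n ∧ ω ∈ b n} := by
      rw [ae_all_iff]
      intro m
      rw [ae_iff]
      refine measure_mono_null ?_ (h1 m)
      intro ω hω
      simp only [mem_ofPred_eq, Classical.not_imp] at hω
      exact hω
    filter_upwards [h3] with ω hω hωr hfin
    obtain ⟨N, hN⟩ := hfin.bddAbove
    obtain ⟨n, hn, hn'⟩ := mem_iUnion.1 (hω (N + 1) hωr)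
    have : n ≤ N := hN hn'
    omega
  -- its countable support
  choose C hCc hCm using fun n => exists_countable (hbm n)
  set CC : Set (L × ℕ) := ⋃ n, C n with hCC
  have hCCc : CC.Countable := countable_iUnion hCc
  have hbC : ∀ n, MeasurableSet[mA CC] (b n) := fun n => mA_mono (subset_iUnion C n) _ (hCm n)
  set S : Set K := {d | ∃ n, (ι d, n) ∈ CC} with hS
  have hSc : S.Countable := by
    have h3 : S ⊆ ι ⁻¹' (Prod.fst '' CC) := by
      rintro d ⟨n, hn⟩
      exact ⟨_, hn, rfl⟩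
    exact ((hCCc.image _).preimage_of_injOn ι.injective.injOn).mono h3
  -- outside of the support no element is in `A`
  have hA : ∀ d, d ∉ S → ∀ s ≤ r, s ∉ meets (A d) := by
    intro d hd s hs hsA
    have h3 : ∀ n, coins (L × ℕ) (s.s ∩ (b n ∩ {ω | ω (ι d, n) = !i})) = 0 := by
      intro n
      by_contra hne
      let u : MAlg (coins (L × ℕ)) := s.inter _ ((hbm n).inter (gen_meas (ι d) n (!i))) hne
      have hus : u ≤ s := s.inter_le _ _ _
      obtain ⟨v, hv, hv'⟩ := mem_fimp.1 (hcol d n) u (hus.trans hs) ⟨down_meets hsA hus, by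
        rw [mem_meets]
        exact null_diff_of_subset fun ω hω => hω.2.1⟩
      exact col_gen ι d n i hv' (null_diff_trans hv (null_diff_of_subset fun ω hω => hω.2.2))
    have h4 : ∀ᵐ ω ∂(coins (L × ℕ)), ∀ n, ¬ (ω ∈ s.s ∩ (b n ∩ {ω | ω (ι d, n) = !i})) := by
      rw [ae_all_iff]
      intro n
      rw [ae_iff]
      simp only [not_not]
      exact h3 n
    have h5 : ∀ᵐ ω ∂(coins (L × ℕ)), ω ∈ s.s → ω ∈ r.s := by
      rw [ae_iff]
      refine measure_mono_null ?_ (le_iff.1 hs)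
      intro ω hω
      simp only [mem_ofPred_eq, Classical.not_imp] at hω
      exact hω
    have h6 : ∀ᵐ ω ∂(coins (L × ℕ)), ¬ (ω ∈ {ω | {n | ω ∈ b n}.Infinite ∧ ∀ n, ω ∈ b n → ω (ι d, n) = i}) := by
      rw [ae_iff]
      simp only [not_not]
      exact block_null CC (ι d) (fun n hn => hd ⟨n, hn⟩) b hbC i
    apply s.pos
    have h7 : ∀ᵐ ω ∂(coins (L × ℕ)), ¬ ω ∈ s.s := by
      filter_upwards [h2, h4, h5, h6] with ω g2 g4 g5 g6 hω
      refine g6 ⟨g2 (g5 hω), fun n hn => ?_⟩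
      by_contra hne
      exact g4 n ⟨hω, hn, by
        change ω (ι d, n) = !i
        cases h : ω (ι d, n) <;> cases i <;> simp_all⟩
    rw [ae_iff] at h7
    simp only [not_not] at h7
    exact h7
  -- an uncountable set is mapped one-to-one into a countable one
  have h3 : ∀ d : K, ∃ t ≤ r, ∃ a, t ∈ meets (e d a) ∧ a ∈ S := by
    intro d
    obtain ⟨t, ht, a, hta⟩ := IsFun_tot e r hef r le_rfl d
    obtain ⟨u, hu, hu'⟩ := mem_fimp.1 (heA d a) t ht hta
    refine ⟨u, hu.trans ht, a, down_meets hta hu, ?_⟩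
    by_contra haS
    exact hA a haS u (hu.trans ht) hu'
  choose t htr a hta haS using h3
  have h4 := (ccc (μ := coins (L × ℕ))).mk_le (fun d => (⟨a d, haS d⟩ : S)) t (by
    rintro x y hne hxy ⟨s, hs, hs'⟩
    have h5 : a x = a y := congrArg Subtype.val hxy
    obtain ⟨v, -, hv⟩ := mem_fimp.1 (hei x y (a x)) s (hs.trans (htr x))
      ⟨down_meets (hta x) hs, by rw [h5]; exact down_meets (hta y) hs'⟩
    exact hne hv)
  have h5 : #K ≤ ℵ₀ := by
    refine h4.trans ?_
    have : #S ≤ ℵ₀ := Cardinal.le_aleph0_iff_set_countable.2 hSc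
    calc #S * ℵ₀ ≤ ℵ₀ * ℵ₀ := mul_le_mul' this le_rfl
      _ = ℵ₀ := Cardinal.aleph0_mul_aleph0
  exact absurd hK (not_lt.2 h5)

end Pool.Agent.N641.RR
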